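import Pool.Agent.X83.DA.Final
import Pool.Agent.X37.FE.Main

/-! MP_8bcfe8_an: for every self-adjoint coercive (unbounded) operator `A` in a real Hilbert space the
optimal velocity constant `K(A,c)` of `u'' + c u' + A u = f` is nonincreasing in the damping `c`.
`SA`, `Fam`, `Good` are defined in `Pool.Agent.X83.DA.Stm`, `Adm`, `Kopt` in
`Pool.Agent.X83.DA.Final`. -/

set_option autoImplicit false

namespace Pool.Agent.Results.MP_8bcfe8_an.DampingMonotone

open MeasureTheory Set Filter Topology RealInnerProductSpace Pool.Agent.X83.DA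

theorem result (H : Type*) [NormedAddCommGroup H] [InnerProductSpace ℝ H] [CompleteSpace H]
    (D : Submodule ℝ H) (A : D →ₗ[ℝ] H) (b : ℝ) (hA : SA D A b) :
    -- monotonicity of the optimal constant
    (∀ c1 c2 : ℝ, 0 < c1 → c1 < c2 → Kopt D A c2 ≤ Kopt D A c1) ∧
    -- the constant is finite and attained
    ∀ c : ℝ, 0 < c → (0 ≤ Kopt D A c ∧ Adm D A c (Kopt D A c)) ∧
      -- existence and uniqueness of the operator families, and a formula for the constant
      ∃ P G : ℝ → H →L[ℝ] H, Fam D A c P G ∧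
        (∀ P' G' : ℝ → H →L[ℝ] H, Fam D A c P' G' → ∀ t : ℝ, 0 ≤ t → P' t = P t ∧ G' t = G t) ∧
        ∀ K : ℝ, 0 ≤ K → (Adm D A c K ↔ ∀ v : H, ∫ s in Ioi (0 : ℝ), ‖G s v‖ ≤ K * ‖v‖) :=
  final (fun D A b c hSA hc => Pool.Agent.X37.FE.exists_fam H D A b c hSA hc) D A b hA

end Pool.Agent.Results.MP_8bcfe8_an.DampingMonotone
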